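import Pool.Agent.H8.DI.Targets

/-!
# Renaming of the special relations
-/

set_option autoImplicit false

namespace Pool.Agent.H99.DI

open Pool.Agent.H69.Sp Pool.Agent.H69.Mt Pool.Agent.H16.TO Pool.Agent.H8.PL Pool.Agent.H8.DI

/-- renaming of the binary relations -/
def ren (g : ℕ → ℕ) : C2 → C2
  | .un i v => .un i v
  | .bi i v w => .bi (g i) v w
  | .eq v w => .eq v w
  | .neg φ => .neg (ren g φ)
  | .and φ ψ => .and (ren g φ) (ren g ψ)
  | .cnt k v φ => .cnt k v (ren g φ)

lemma sat_ren (g : ℕ → ℕ) {A : Type} (P : ℕ → A → Prop) (R : ℕ → A → A → Prop) (φ : C2) :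
    ∀ s : Bool → A, ((ren g φ).Sat P R s ↔ φ.Sat P (fun i => R (g i)) s) := by
  induction φ with
  | un i v => intro s; exact Iff.rfl
  | bi i v w => intro s; exact Iff.rfl
  | eq v w => intro s; exact Iff.rfl
  | neg φ ih => intro s; exact not_congr (ih s)
  | and φ ψ ih1 ih2 => intro s; exact and_congr (ih1 s) (ih2 s)
  | cnt k v φ ih =>
    intro s
    have hset : {a | (ren g φ).Sat P R (Function.update s v a)} =
        {a | φ.Sat P (fun i => R (g i)) (Function.update s v a)} := by
      ext a
      exact ih (Function.update s v a)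
    change k ≤ {a | (ren g φ).Sat P R (Function.update s v a)}.ncard ↔
      k ≤ {a | φ.Sat P (fun i => R (g i)) (Function.update s v a)}.ncard
    rw [hset]

lemma exists_kd (n : ℕ) (κ : Kd) : ∃ r : Fin n → Fin n → Prop, IsK κ r := by
  cases κ with
  | ord =>
    refine ⟨fun a b => a < b, ?_⟩
    change IsStrictTotalOrder (Fin n) (fun a b => a < b)
    infer_instance
  | tree =>
    exact ⟨fun _ _ => False, fun _ h => h, fun _ _ _ h _ => h, fun _ _ _ h _ => h.elim⟩
  | eqv => exact ⟨fun a b => a = b, eq_equivalence⟩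

theorem pf_rn : K_RN := by
  classical
  intro g hg l l' hl φ
  refine ⟨ren g φ, fun τ => ?_⟩
  ext n
  constructor
  · rintro ⟨hn, P, R, hR, hs⟩
    exact ⟨hn, P, fun i => R (g i), fun j hj => hR (g j) ((hl j).2 hj),
      fun s => (sat_ren g P R φ s).1 (hs s)⟩
  · rintro ⟨hn, P, R', hR, hs⟩
    choose dft hdft using exists_kd n
    obtain ⟨R, hRdef⟩ : ∃ R : ℕ → Fin n → Fin n → Prop, R = fun i =>
      if h : ∃ j, g j = i then R' h.choose else dft (τ i) := ⟨_, rfl⟩
    have hRg : ∀ j, R (g j) = R' j := by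
      intro j
      have hex : ∃ j', g j' = g j := ⟨j, rfl⟩
      rw [hRdef]
      simp only
      rw [dif_pos hex, hg hex.choose_spec]
    refine ⟨hn, P, R, ?_, ?_⟩
    · intro i hi
      by_cases h : ∃ j, g j = i
      · obtain ⟨j, rfl⟩ := h
        rw [hRg]
        exact hR j ((hl j).1 hi)
      · rw [hRdef]
        simp only
        rw [dif_neg h]
        exact hdft (τ i)
    · intro s
      rw [sat_ren]
      have : (fun i => R (g i)) = R' := funext hRg
      rw [this]
      exact hs s

end Pool.Agent.H99.DI
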