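import Pool.Agent.H8.DI.Targets

/-!
# Two equivalence relations carry everything
-/

set_option autoImplicit false

namespace Pool.Agent.H99.DI

open Pool.Agent.H69.Sp Pool.Agent.H69.Mt Pool.Agent.H16.TO Pool.Agent.H8.PL Pool.Agent.H8.DI

theorem pf_xe (hSQ : Z_SQ) (hDE : K_DE) (hST : K_ST) (hMC : K_MC) (hML : K_ML) (hMN : K_MN)
    (hPO : K_PO) (hEQ : Pool.Agent.H8.PU.Y_EQ) : K_XE := by
  intro S hS
  obtain ⟨r, Q, U, Hh, Vv, hr, hQ, hgrid⟩ := hSQ S hS
  obtain ⟨φ, hφ⟩ := hDE Q U Hh Vv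
  refine ⟨φ, r, hr, fun n hn => ?_⟩
  have hN : 0 < n ^ r := pow_pos hn r
  have hpolN : 0 < pol (n ^ r) := lt_of_lt_of_le hN (hPO.2.2.1 _)
  constructor
  · intro hnS
    obtain ⟨t, ht⟩ := (hgrid (n ^ r) (n ^ r) hN hN).2 ⟨n, hnS, rfl, rfl⟩
    have hcell := hMC Q U Hh Vv (n ^ r) (n ^ r) t hN hN ht
    have hlink := hML Q U Hh Vv (n ^ r) (n ^ r) t hN hN ht
    obtain ⟨hfin, hcard⟩ := hMN (n ^ r) (n ^ r)
    rw [hPO.2.1] at hcard
    have hne : Nonempty (Mo (n ^ r) (n ^ r)) := by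
      by_contra h
      rw [not_nonempty_iff] at h
      rw [Nat.card_of_isEmpty] at hcard
      omega
    obtain ⟨P, R, h0, h1, hs⟩ := (hφ (Mo (n ^ r) (n ^ r)) eM fM hcell.eqv hlink.feq).2
      ⟨stM t, mM, nM, hcell, hlink⟩
    obtain ⟨e⟩ : Nonempty (Mo (n ^ r) (n ^ r) ≃ Fin (pol (n ^ r))) := by
      rw [← hcard]
      exact ⟨Finite.equivFin _⟩
    refine ⟨hpolN, fun i b => P i (e.symm b), fun i a b => R i (e.symm a) (e.symm b), ?_, ?_⟩
    · intro j hj
      have key : ∀ T : Mo (n ^ r) (n ^ r) → Mo (n ^ r) (n ^ r) → Prop, Equivalence T →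
          Equivalence (fun a b : Fin (pol (n ^ r)) => T (e.symm a) (e.symm b)) := by
        intro T hT
        exact ⟨fun a => hT.refl _, fun h => hT.symm h, fun h h' => hT.trans h h'⟩
      have hj2 : j = 0 ∨ j = 1 := by omega
      rcases hj2 with rfl | rfl
      · change Equivalence (fun a b : Fin (pol (n ^ r)) => R 0 (e.symm a) (e.symm b))
        rw [h0]
        exact key eM hcell.eqv
      · change Equivalence (fun a b : Fin (pol (n ^ r)) => R 1 (e.symm a) (e.symm b))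
        rw [h1]
        exact key fM hlink.feq
    · intro s
      have h2 := (hEQ (Mo (n ^ r) (n ^ r)) (Fin (pol (n ^ r))) e P R
        (fun i b => P i (e.symm b)) (fun i a b => R i (e.symm a) (e.symm b)) φ
        (fun i _ a => by simp) (fun i _ a b => by simp) (fun w => e.symm (s w))).1 (hs _)
      have h3 : (fun w => e (e.symm (s w))) = s := by
        funext w
        exact e.apply_symm_apply _
      rw [h3] at h2
      exact h2
  · rintro ⟨_, P, R, hR, hs⟩
    have hne : Nonempty (Fin (pol (n ^ r))) := ⟨⟨0, hpolN⟩⟩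
    have e0 : Equivalence (R 0) := hR 0 (by norm_num)
    have e1 : Equivalence (R 1) := hR 1 (by norm_num)
    obtain ⟨st, M, N, hc, hl⟩ := (hφ (Fin (pol (n ^ r))) (R 0) (R 1) e0 e1).1
      ⟨P, R, rfl, rfl, hs⟩
    obtain ⟨W, H, hW, hH, ht, hcard⟩ := hST (Fin (pol (n ^ r))) Q U Hh Vv st (R 0) (R 1) M N hc hl
    obtain ⟨m, hm, hWm, hHm⟩ := (hgrid W H hW hH).1 ht
    rw [Nat.card_fin, hWm, hHm, hPO.2.1] at hcard
    have h4 := hPO.2.2.2 _ _ hcard
    have h5 : n = m := Nat.pow_left_injective (by omega) h4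
    rw [h5]
    exact hm

end Pool.Agent.H99.DI
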